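import Pool.Agent.TH44.PGH.Avg

/-!
The averaged two-orbit inequality.
-/

set_option autoImplicit false

namespace Pool.Agent.TH44.PGH

open Real Filter Topology MeasureTheory Set
open scoped ENNReal
open Pool.Agent.TH229.PG (Leaf HopfData HopfBounds mm)

/-- cutoff function -/
noncomputable def cut (R y : ℝ) : ℝ := max 0 (min 1 (2 - |y| / R))

theorem cut_nonneg (R y : ℝ) : 0 ≤ cut R y := le_max_left _ _

theorem cut_le_one (R y : ℝ) : cut R y ≤ 1 := max_le (by norm_num) (min_le_left _ _)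

theorem cut_neg (R y : ℝ) : cut R (-y) = cut R y := by unfold cut; rw [abs_neg]

theorem continuous_cut (R : ℝ) : Continuous (cut R) := by unfold cut; fun_prop

theorem cut_lip {R : ℝ} (hR : 0 < R) (y z : ℝ) : |cut R y - cut R z| ≤ |y - z| / R := by
  unfold cut
  calc |max 0 (min 1 (2 - |y| / R)) - max 0 (min 1 (2 - |z| / R))|
      ≤ |min 1 (2 - |y| / R) - min 1 (2 - |z| / R)| := by
        have := abs_max_sub_max_le_abs (min 1 (2 - |y| / R)) (min 1 (2 - |z| / R)) 0
        rwa [max_comm, max_comm _ (0 : ℝ)] at this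
    _ ≤ |(2 - |y| / R) - (2 - |z| / R)| := by
        have := abs_min_sub_min_le_max 1 (2 - |y| / R) 1 (2 - |z| / R)
        simpa using this
    _ = |(|y| - |z|)| / R := by
        have : (2 - |y| / R) - (2 - |z| / R) = -((|y| - |z|) / R) := by ring
        rw [this, abs_neg, abs_div, abs_of_pos hR]
    _ ≤ _ := by
        have := abs_abs_sub_abs_le y z
        gcongr

theorem cut_zero {R y : ℝ} (hR : 0 < R) (h : cut R y ≠ 0) : |y| ≤ 2 * R := by
  by_contra hn
  rw [not_le] at hn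
  apply h
  have h5 : 2 < |y| / R := by rw [lt_div_iff₀ hR]; exact hn
  have h6 : min 1 (2 - |y| / R) ≤ 0 := (min_le_right _ _).trans (by linarith)
  unfold cut
  exact max_eq_left h6

theorem cut_tendsto (y : ℝ) : Tendsto (fun n : ℕ => cut ((n : ℝ) + 1) y) atTop (𝓝 1) := by
  refine tendsto_const_nhds.congr' ?_
  filter_upwards [eventually_ge_atTop ⌈|y|⌉₊] with n hn
  have h1 : |y| ≤ (n : ℝ) + 1 := by
    have := Nat.le_of_ceil_le hn
    linarith
  have h2 : |y| / ((n : ℝ) + 1) ≤ 1 := by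
    rw [div_le_one (by positivity)]; exact h1
  unfold cut
  rw [min_eq_left (by linarith), max_eq_right (by norm_num)]

/-- the fundamental domain of the pairs -/
def SS (T : ℝ) : Set (ℝ × ℝ) := Ioc 0 T ×ˢ Ioo 0 T

theorem measSS (T : ℝ) : MeasurableSet (SS T) := measurableSet_Ioc.prod measurableSet_Ioo

theorem nuT_eq (T : ℝ) : nuT T = volume.restrict (SS T) := by
  unfold nuT SS
  rw [Measure.prod_restrict]
  rfl

theorem volSS (T : ℝ) : volume (SS T) < ⊤ := by
  unfold SS
  rw [Measure.volume_eq_prod, Measure.prod_prod]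
  exact ENNReal.mul_lt_top (by simp) (by simp)

section
variable {T : ℝ} {Y a P : ℝ → ℝ → ℝ} (H : HopfData T Y a P)
include H

theorem measG : Measurable (fun p : ℝ × ℝ => ((p.1, Y p.1 (p.1 + p.2)) : ℝ × ℝ)) := by
  have h1 : Measurable (fun p : ℝ × ℝ => (p.1, p.1 + p.2)) :=
    measurable_fst.prodMk (by fun_prop)
  exact measurable_fst.prodMk (H.measY.comp h1)

theorem good_of_bdd {h : ℝ × ℝ → ℝ} (hm : Measurable h) (hp : ∀ x y, h (x + T, y) = h (x, y))
    {K : ℝ} (hK : ∀ x d, 0 < d → d < T → |a x (x + d) * h (x, Y x (x + d))| ≤ K) :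
    Good T h ∧ Integrable (fun p : ℝ × ℝ => a p.1 (p.1 + p.2) * h (p.1, Y p.1 (p.1 + p.2)))
        (volume.restrict (SS T)) ∧
      ∫ p, h p ∂(muT T) =
      ∫ p : ℝ × ℝ in SS T, a p.1 (p.1 + p.2) * h (p.1, Y p.1 (p.1 + p.2)) := by
  have h1 : Measurable (fun p : ℝ × ℝ => (p.1, p.1 + p.2)) :=
    measurable_fst.prodMk (by fun_prop)
  have hm' : Measurable (fun p : ℝ × ℝ => a p.1 (p.1 + p.2) * h (p.1, Y p.1 (p.1 + p.2))) :=
    (H.measa.comp h1).mul (hm.comp (measG H))
  have hfin : IsFiniteMeasure (volume.restrict (SS T)) :=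
    ⟨by rw [Measure.restrict_apply_univ]; exact volSS T⟩
  have hi' : Integrable (fun p : ℝ × ℝ => a p.1 (p.1 + p.2) * h (p.1, Y p.1 (p.1 + p.2)))
      (volume.restrict (SS T)) := by
    refine Integrable.of_bound hm'.aestronglyMeasurable K ?_
    refine (ae_restrict_iff' (measSS T)).mpr (Eventually.of_forall ?_)
    rintro ⟨x, d⟩ ⟨_, hd⟩
    exact hK x d hd.1 hd.2
  have hcong : ∀ g : ℝ → ℝ≥0∞, (∀ u v : ℝ, 0 ≤ u → ENNReal.ofReal u * g v = g (u * v)) →
      Measurable g → ∫⁻ p, g (h p) ∂(muT T) =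
        ∫⁻ p : ℝ × ℝ in SS T, g (a p.1 (p.1 + p.2) * h (p.1, Y p.1 (p.1 + p.2))) := by
    intro g hg hgm
    rw [conv H (fun p => g (h p)) (hgm.comp hm), nuT_eq]
    refine setLIntegral_congr_fun (measSS T) ?_
    rintro ⟨x, d⟩ ⟨_, hd⟩
    simp only at hd ⊢
    exact hg _ _ (apos' H (by linarith [hd.1]) (by linarith [hd.2])).le
  have e0 := hcong (fun v => ‖v‖ₑ) (fun u v hu => by
    rw [enorm_mul, Real.enorm_of_nonneg hu]) measurable_enorm
  have hint : Integrable h (muT T) := by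
    refine ⟨hm.aestronglyMeasurable, ?_⟩
    unfold HasFiniteIntegral
    rw [e0]
    exact hi'.2
  refine ⟨⟨hm, hp, hint⟩, hi', ?_⟩
  rw [integral_eq_lintegral_pos_part_sub_lintegral_neg_part hint,
    integral_eq_lintegral_pos_part_sub_lintegral_neg_part hi']
  have e1 := hcong (fun v => ENNReal.ofReal v) (fun u v hu => by
    rw [ENNReal.ofReal_mul hu]) ENNReal.measurable_ofReal
  have e2 := hcong (fun v => ENNReal.ofReal (-v)) (fun u v hu => by
    rw [← ENNReal.ofReal_mul hu, mul_neg]) (ENNReal.measurable_ofReal.comp measurable_neg)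
  rw [e1, e2]

omit H in
theorem mm_pos {d : ℝ} (h0 : 0 < d) (h1 : d < T) : 0 < mm T d :=
  lt_min h0 (by linarith)

omit H in
theorem mm_le {d : ℝ} (h1 : d < T) : mm T d ≤ T := (min_le_left _ _).trans h1.le

/-- the inequality with the cutoff, in coordinates of pairs -/
theorem cut_ineq {C c : ℝ} (B : HopfBounds T C c Y a P) {R : ℝ} (hR : 0 < R) :
    0 ≤ ∫ p : ℝ × ℝ in SS T,
      (a p.1 (p.1 + p.2) * P p.1 (p.1 + p.2) * cut R (Y p.1 (p.1 + p.2)) ^ 2 +
       a (p.1 + p.2) p.1 * P (p.1 + p.2) p.1 * cut R (Y (p.1 + p.2) p.1) ^ 2 -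
       2 * (a p.1 (p.1 + p.2) * a (p.1 + p.2) p.1 * cut R (Y p.1 (p.1 + p.2)) *
        cut R (Y (p.1 + p.2) p.1))) ∧
    Integrable (fun p : ℝ × ℝ =>
      (a p.1 (p.1 + p.2) * P p.1 (p.1 + p.2) * cut R (Y p.1 (p.1 + p.2)) ^ 2 +
       a (p.1 + p.2) p.1 * P (p.1 + p.2) p.1 * cut R (Y (p.1 + p.2) p.1) ^ 2 -
       2 * (a p.1 (p.1 + p.2) * a (p.1 + p.2) p.1 * cut R (Y p.1 (p.1 + p.2)) *
        cut R (Y (p.1 + p.2) p.1)))) (volume.restrict (SS T)) := by
  have hT := H.Tpos
  have hC := B.Cpos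
  have hc := B.cpos
  set Q : ℝ := (C + 2 * R + C * T ^ 2) / c with hQ
  have hQ0 : 0 < Q := by positivity
  have hmm : ∀ x d, 0 < d → d < T → |Y x (x + d)| ≤ 2 * R + C * T ^ 2 →
      C / mm T d ^ 2 ≤ C * Q ^ 2 := by
    intro x d h0 h1 h2
    have h3 := B.bY x d h0 h1
    have h4 := mm_pos h0 h1
    have h5 : 1 / mm T d ≤ Q := by
      rw [hQ, le_div_iff₀ hc]
      have : 1 / mm T d * c = c / mm T d := by ring
      rw [this]; linarith
    calc C / mm T d ^ 2 = C * (1 / mm T d) ^ 2 := by ring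
      _ ≤ C * Q ^ 2 := by gcongr
  have hYY : ∀ x d, 0 < d → d < T → |Y (x + d) x| ≤ 2 * R →
      |Y x (x + d)| ≤ 2 * R + C * T ^ 2 := by
    intro x d h0 h1 h2
    have h3 := B.bg x d h0 h1
    have h4 := mm_pos h0 h1
    have h5 : mm T d ^ 2 ≤ T ^ 2 := by
      have := mm_le (d := d) h1; gcongr
    have h6 : C * mm T d ^ 2 ≤ C * T ^ 2 := by gcongr
    have h7 : Y x (x + d) = (Y (x + d) x + Y x (x + d)) - Y (x + d) x := by ring
    rw [h7]
    have h8 := abs_sub (Y (x + d) x + Y x (x + d)) (Y (x + d) x)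
    linarith
  have hcutm : Measurable (cut R) := (continuous_cut R).measurable
  -- first function
  have A1 := good_of_bdd H (h := fun q : ℝ × ℝ => P q.1 (Xf T Y q.1 q.2) * cut R q.2 ^ 2)
    ((H.measP.comp (measurable_fst.prodMk (measX H))).mul ((hcutm.comp measurable_snd).pow_const 2))
    (by
      intro x y
      simp only [X_per H, H.perP1, H.perP2])
    (K := (C * Q ^ 2) * (C * Q ^ 2)) (by
      intro x d h0 h1
      simp only
      rw [X_eq H (by linarith) (by linarith)]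
      by_cases hz : cut R (Y x (x + d)) = 0
      · rw [hz]; simp; positivity
      · have h2 := cut_zero hR hz
        have h3 := hmm x d h0 h1 (by nlinarith [sq_nonneg T])
        have h4 := B.ba x d h0 h1
        have h5 := B.bP x d h0 h1
        have h6 := apos' H (x := x) (z := x + d) (by linarith) (by linarith)
        have h7 := cut_nonneg R (Y x (x + d))
        have h8 := cut_le_one R (Y x (x + d))
        have h9 : cut R (Y x (x + d)) ^ 2 ≤ 1 := pow_le_one₀ h7 h8
        rw [abs_mul, abs_mul, abs_of_pos h6, abs_of_nonneg (sq_nonneg (cut R (Y x (x + d))))]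
        calc a x (x + d) * (|P x (x + d)| * cut R (Y x (x + d)) ^ 2)
            ≤ (C * Q ^ 2) * ((C * Q ^ 2) * 1) := by
              gcongr
              · exact h4.trans h3
              · exact h5.trans h3
          _ = _ := by ring)
  -- second function
  have A2 := good_of_bdd H
    (h := fun q : ℝ × ℝ => kap T Y a q * P (Xf T Y q.1 q.2) q.1 * cut R (Fm T Y q).2 ^ 2)
    (((meask H).mul (H.measP.comp ((measX H).prodMk measurable_fst))).mul
      ((hcutm.comp (measurable_snd.comp (measF H))).pow_const 2))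
    (by
      intro x y
      rw [k_per H, F_per H]
      simp only [X_per H, H.perP1, H.perP2])
    (K := (C * Q ^ 2) * (C * Q ^ 2)) (by
      intro x d h0 h1
      have g1 : x < x + d := by linarith
      have g2 : x + d < x + T := by linarith
      rw [k_pair H g1 g2, F_pair H g1 g2]
      simp only
      rw [X_eq H g1 g2, cut_neg]
      have h6 := apos' H g1 g2
      have h6' := apos'' H g1 g2
      have e : a x (x + d) * (a (x + d) x / a x (x + d) * P (x + d) x * cut R (Y (x + d) x) ^ 2) =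
          a (x + d) x * (P (x + d) x * cut R (Y (x + d) x) ^ 2) := by
        field_simp
      rw [e]
      by_cases hz : cut R (Y (x + d) x) = 0
      · rw [hz]; simp; positivity
      · have h2 := cut_zero hR hz
        have h3 := hmm x d h0 h1 (hYY x d h0 h1 h2)
        have h4 := B.bb x d h0 h1
        have h5 := B.bR x d h0 h1
        have h7 := cut_nonneg R (Y (x + d) x)
        have h8 := cut_le_one R (Y (x + d) x)
        have h9 : cut R (Y (x + d) x) ^ 2 ≤ 1 := pow_le_one₀ h7 h8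
        rw [abs_mul, abs_mul, abs_of_pos h6', abs_of_nonneg (sq_nonneg (cut R (Y (x + d) x)))]
        calc a (x + d) x * (|P (x + d) x| * cut R (Y (x + d) x) ^ 2)
            ≤ (C * Q ^ 2) * ((C * Q ^ 2) * 1) := by
              gcongr
              · exact h4.trans h3
              · exact h5.trans h3
          _ = _ := by ring)
  -- third function
  have A3 := good_of_bdd H
    (h := fun q : ℝ × ℝ => a (Xf T Y q.1 q.2) q.1 * cut R q.2 * cut R (Fm T Y q).2)
    (((H.measa.comp ((measX H).prodMk measurable_fst)).mul (hcutm.comp measurable_snd)).mul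
      (hcutm.comp (measurable_snd.comp (measF H))))
    (by
      intro x y
      rw [F_per H]
      simp only [X_per H, H.pera1, H.pera2])
    (K := (C * Q ^ 2) * (C * Q ^ 2)) (by
      intro x d h0 h1
      have g1 : x < x + d := by linarith
      have g2 : x + d < x + T := by linarith
      rw [F_pair H g1 g2]
      simp only
      rw [X_eq H g1 g2, cut_neg]
      have h6 := apos' H g1 g2
      have h6' := apos'' H g1 g2
      have k7 := cut_nonneg R (Y (x + d) x)
      have k8 := cut_le_one R (Y (x + d) x)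
      by_cases hz : cut R (Y x (x + d)) = 0
      · rw [hz]; simp; positivity
      · have h2 := cut_zero hR hz
        have h3 := hmm x d h0 h1 (by nlinarith [sq_nonneg T])
        have h4 := B.ba x d h0 h1
        have h5 := B.bb x d h0 h1
        have h7 := cut_nonneg R (Y x (x + d))
        have h8 := cut_le_one R (Y x (x + d))
        rw [abs_of_nonneg (by positivity)]
        calc a x (x + d) * (a (x + d) x * cut R (Y x (x + d)) * cut R (Y (x + d) x))
            ≤ (C * Q ^ 2) * ((C * Q ^ 2) * 1 * 1) := by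
              gcongr
              · exact h4.trans h3
              · exact h5.trans h3
          _ = _ := by ring)
  obtain ⟨G1, I1, E1⟩ := A1
  obtain ⟨G2, I2, E2⟩ := A2
  obtain ⟨G3, I3, E3⟩ := A3
  have hmain := avg H (Φ := fun q => cut R q.2) (fun q => cut_nonneg R _) G1 G2 G3
  rw [E1, E2, E3] at hmain
  have c1 : ∀ p ∈ SS T, a p.1 (p.1 + p.2) * (P p.1 (Xf T Y p.1 (Y p.1 (p.1 + p.2))) *
      cut R (Y p.1 (p.1 + p.2)) ^ 2) =
      a p.1 (p.1 + p.2) * P p.1 (p.1 + p.2) * cut R (Y p.1 (p.1 + p.2)) ^ 2 := by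
    rintro ⟨x, d⟩ ⟨_, hd⟩
    simp only at hd ⊢
    rw [X_eq H (by linarith [hd.1]) (by linarith [hd.2])]
    ring
  have c2 : ∀ p ∈ SS T, a p.1 (p.1 + p.2) * (kap T Y a (p.1, Y p.1 (p.1 + p.2)) *
      P (Xf T Y p.1 (Y p.1 (p.1 + p.2))) p.1 * cut R (Fm T Y (p.1, Y p.1 (p.1 + p.2))).2 ^ 2) =
      a (p.1 + p.2) p.1 * P (p.1 + p.2) p.1 * cut R (Y (p.1 + p.2) p.1) ^ 2 := by
    rintro ⟨x, d⟩ ⟨_, hd⟩
    simp only at hd ⊢
    have g1 : x < x + d := by linarith [hd.1]
    have g2 : x + d < x + T := by linarith [hd.2]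
    rw [k_pair H g1 g2, F_pair H g1 g2, X_eq H g1 g2]
    simp only
    rw [cut_neg]
    have h6 := (apos' H g1 g2).ne'
    field_simp
  have c3 : ∀ p ∈ SS T, a p.1 (p.1 + p.2) * (a (Xf T Y p.1 (Y p.1 (p.1 + p.2))) p.1 *
      cut R (Y p.1 (p.1 + p.2)) * cut R (Fm T Y (p.1, Y p.1 (p.1 + p.2))).2) =
      a p.1 (p.1 + p.2) * a (p.1 + p.2) p.1 * cut R (Y p.1 (p.1 + p.2)) *
        cut R (Y (p.1 + p.2) p.1) := by
    rintro ⟨x, d⟩ ⟨_, hd⟩
    simp only at hd ⊢
    have g1 : x < x + d := by linarith [hd.1]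
    have g2 : x + d < x + T := by linarith [hd.2]
    rw [F_pair H g1 g2, X_eq H g1 g2]
    simp only
    rw [cut_neg]
    ring
  rw [setIntegral_congr_fun (measSS T) c1, setIntegral_congr_fun (measSS T) c2,
    setIntegral_congr_fun (measSS T) c3] at hmain
  have J1 := (integrableOn_congr_fun c1 (measSS T)).mp I1
  have J2 := (integrableOn_congr_fun c2 (measSS T)).mp I2
  have J3 := ((integrableOn_congr_fun c3 (measSS T)).mp I3).const_mul 2
  refine ⟨?_, (J1.add J2).sub J3⟩
  have s1 := integral_sub (J1.add J2) J3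
  have s2 := integral_add J1 J2
  simp only [Pi.add_apply] at s1
  rw [s1, s2, integral_const_mul]
  linarith

/-- the averaged two-orbit inequality -/
theorem hopf_ineq {C c : ℝ} (B : HopfBounds T C c Y a P) :
    ∫ p in (Ioc 0 T) ×ˢ (Ioo 0 T), (2 * a p.1 (p.1 + p.2) * a (p.1 + p.2) p.1
      - a p.1 (p.1 + p.2) * P p.1 (p.1 + p.2)
      - a (p.1 + p.2) p.1 * P (p.1 + p.2) p.1) ≤ 0 := by
  have hT := H.Tpos
  have hC := B.Cpos
  change ∫ p in SS T, (2 * a p.1 (p.1 + p.2) * a (p.1 + p.2) p.1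
      - a p.1 (p.1 + p.2) * P p.1 (p.1 + p.2)
      - a (p.1 + p.2) p.1 * P (p.1 + p.2) p.1) ≤ 0
  set DD : ℝ × ℝ → ℝ := fun p => 2 * a p.1 (p.1 + p.2) * a (p.1 + p.2) p.1
      - a p.1 (p.1 + p.2) * P p.1 (p.1 + p.2)
      - a (p.1 + p.2) p.1 * P (p.1 + p.2) p.1 with hDD
  have hfin : IsFiniteMeasure (volume.restrict (SS T)) :=
    ⟨by rw [Measure.restrict_apply_univ]; exact volSS T⟩
  have m1 : Measurable (fun p : ℝ × ℝ => (p.1, p.1 + p.2)) :=
    measurable_fst.prodMk (by fun_prop)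
  have m2 : Measurable (fun p : ℝ × ℝ => (p.1 + p.2, p.1)) :=
    (by fun_prop : Measurable (fun p : ℝ × ℝ => p.1 + p.2)).prodMk measurable_fst
  have hDm : Measurable DD := by
    have a1 := H.measa.comp m1
    have a2 := H.measa.comp m2
    have a3 := H.measP.comp m1
    have a4 := H.measP.comp m2
    exact (((a1.const_mul 2).mul a2).sub (a1.mul a3)).sub (a2.mul a4)
  have hcm : ∀ R : ℝ, Measurable (fun p : ℝ × ℝ => cut R (Y p.1 (p.1 + p.2))) := fun R =>
    (continuous_cut R).measurable.comp (H.measY.comp m1)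
  have hDb : ∀ p ∈ SS T, |DD p| ≤ C := by
    rintro ⟨x, d⟩ ⟨_, hd⟩
    exact B.bD x d hd.1 hd.2
  have hDint : ∀ R : ℝ, Integrable (fun p : ℝ × ℝ => DD p * cut R (Y p.1 (p.1 + p.2)) ^ 2)
      (volume.restrict (SS T)) := by
    intro R
    refine Integrable.of_bound (hDm.mul ((hcm R).pow_const 2)).aestronglyMeasurable C ?_
    refine (ae_restrict_iff' (measSS T)).mpr (Eventually.of_forall fun p hp => ?_)
    have h1 := hDb p hp
    have h7 := cut_nonneg R (Y p.1 (p.1 + p.2))
    have h8 := cut_le_one R (Y p.1 (p.1 + p.2))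
    have h9 : cut R (Y p.1 (p.1 + p.2)) ^ 2 ≤ 1 := pow_le_one₀ h7 h8
    rw [Real.norm_eq_abs, abs_mul, abs_of_nonneg (sq_nonneg (cut R (Y p.1 (p.1 + p.2))))]
    calc |DD p| * cut R (Y p.1 (p.1 + p.2)) ^ 2 ≤ C * 1 := by gcongr
      _ = C := by ring
  set K : ℝ := C ^ 4 + 2 * C ^ 2 * T with hK
  have hK0 : 0 < K := by positivity
  set V : ℝ := (volume.restrict (SS T)).real univ with hV
  have hkey : ∀ n : ℕ, ∫ p in SS T, DD p * cut ((n : ℝ) + 1) (Y p.1 (p.1 + p.2)) ^ 2 ≤
      V * K * (1 / ((n : ℝ) + 1)) := by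
    intro n
    set R : ℝ := (n : ℝ) + 1 with hRd
    have hR1 : 1 ≤ R := by rw [hRd]; linarith [Nat.cast_nonneg (α := ℝ) n]
    have hR : 0 < R := by linarith
    obtain ⟨h1, h2⟩ := cut_ineq H B hR
    have h3 : ∫ p : ℝ × ℝ in SS T,
      (a p.1 (p.1 + p.2) * P p.1 (p.1 + p.2) * cut R (Y p.1 (p.1 + p.2)) ^ 2 +
       a (p.1 + p.2) p.1 * P (p.1 + p.2) p.1 * cut R (Y (p.1 + p.2) p.1) ^ 2 -
       2 * (a p.1 (p.1 + p.2) * a (p.1 + p.2) p.1 * cut R (Y p.1 (p.1 + p.2)) *
        cut R (Y (p.1 + p.2) p.1))) ≤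
       ∫ p : ℝ × ℝ in SS T, (K * (1 / R) - DD p * cut R (Y p.1 (p.1 + p.2)) ^ 2) := by
      refine setIntegral_mono_on h2 ((integrable_const _).sub (hDint R)) (measSS T) ?_
      rintro ⟨x, d⟩ ⟨_, hd⟩
      simp only at hd ⊢
      simp only [hDD]
      have hd0 := hd.1
      have hd1 := hd.2
      have g1 : x < x + d := by linarith
      have g2 : x + d < x + T := by linarith
      set A := a x (x + d) with hA
      set Bb := a (x + d) x with hBb
      set p1 := P x (x + d) with hp1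
      set r1 := P (x + d) x with hr1
      set f := cut R (Y x (x + d)) with hf
      set g := cut R (Y (x + d) x) with hg
      have hm := mm_pos hd0 hd1
      have hmT := mm_le (d := d) hd1
      have bA : A ≤ C / mm T d ^ 2 := B.ba x d hd0 hd1
      have bB : Bb ≤ C / mm T d ^ 2 := B.bb x d hd0 hd1
      have pA : 0 < A := apos' H g1 g2
      have pB : 0 < Bb := apos'' H g1 g2
      have b2 : |Bb * (A - r1)| ≤ C / mm T d := B.bg2 x d hd0 hd1
      have hfg : |f - g| ≤ C * mm T d ^ 2 / R := by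
        have h4 := cut_lip hR (Y x (x + d)) (-Y (x + d) x)
        rw [cut_neg] at h4
        refine h4.trans ?_
        have h5 := B.bg x d hd0 hd1
        have h6 : Y x (x + d) - -Y (x + d) x = Y (x + d) x + Y x (x + d) := by ring
        rw [h6]
        gcongr
      have f0 : 0 ≤ f := cut_nonneg _ _
      have f1 : f ≤ 1 := cut_le_one _ _
      have g0 : 0 ≤ g := cut_nonneg _ _
      have g1' : g ≤ 1 := cut_le_one _ _
      have t1 : A * Bb * (f - g) ^ 2 ≤ C ^ 4 * (1 / R) := by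
        have h7 : (f - g) ^ 2 ≤ (C * mm T d ^ 2 / R) ^ 2 := by
          rw [← sq_abs]; gcongr
        calc A * Bb * (f - g) ^ 2
            ≤ (C / mm T d ^ 2) * (C / mm T d ^ 2) * (C * mm T d ^ 2 / R) ^ 2 := by gcongr
          _ = C ^ 4 * (1 / R) * (1 / R) := by field_simp
          _ ≤ C ^ 4 * (1 / R) * 1 := by
              gcongr
              rw [div_le_one hR]; exact hR1
          _ = _ := by ring
      have t2 : |Bb * (A - r1) * (g ^ 2 - f ^ 2)| ≤ 2 * C ^ 2 * T * (1 / R) := by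
        have h8 : |g ^ 2 - f ^ 2| ≤ 2 * (C * mm T d ^ 2 / R) := by
          have e : g ^ 2 - f ^ 2 = -(f - g) * (g + f) := by ring
          rw [e, abs_mul, abs_neg, abs_of_nonneg (add_nonneg g0 f0)]
          calc |f - g| * (g + f) ≤ (C * mm T d ^ 2 / R) * (1 + 1) := by gcongr
            _ = _ := by ring
        rw [abs_mul]
        calc |Bb * (A - r1)| * |g ^ 2 - f ^ 2|
            ≤ (C / mm T d) * (2 * (C * mm T d ^ 2 / R)) := by gcongr
          _ = 2 * C ^ 2 * mm T d * (1 / R) := by field_simp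
          _ ≤ 2 * C ^ 2 * T * (1 / R) := by gcongr
      have t3 := (abs_le.mp t2).1
      have e : A * p1 * f ^ 2 + Bb * r1 * g ^ 2 - 2 * (A * Bb * f * g) =
          A * Bb * (f - g) ^ 2 - Bb * (A - r1) * (g ^ 2 - f ^ 2) -
          (2 * A * Bb - A * p1 - Bb * r1) * f ^ 2 := by ring
      rw [e, hK]
      nlinarith [t1, t3]
    have h4 : ∫ p : ℝ × ℝ in SS T, (K * (1 / R) - DD p * cut R (Y p.1 (p.1 + p.2)) ^ 2) =
        V * K * (1 / R) - ∫ p : ℝ × ℝ in SS T, DD p * cut R (Y p.1 (p.1 + p.2)) ^ 2 := by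
      rw [integral_sub (integrable_const _) (hDint R), integral_const, smul_eq_mul]
      ring
    rw [h4] at h3
    linarith
  have hlim : Tendsto (fun n : ℕ => ∫ p in SS T,
      DD p * cut ((n : ℝ) + 1) (Y p.1 (p.1 + p.2)) ^ 2) atTop (𝓝 (∫ p in SS T, DD p)) := by
    refine tendsto_integral_of_dominated_convergence (fun _ => C) ?_
      (integrable_const _) ?_ ?_
    · intro n
      exact (hDm.mul ((hcm _).pow_const 2)).aestronglyMeasurable
    · intro n
      refine (ae_restrict_iff' (measSS T)).mpr (Eventually.of_forall fun p hp => ?_)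
      have h1 := hDb p hp
      have h7 := cut_nonneg ((n : ℝ) + 1) (Y p.1 (p.1 + p.2))
      have h8 := cut_le_one ((n : ℝ) + 1) (Y p.1 (p.1 + p.2))
      have h9 : cut ((n : ℝ) + 1) (Y p.1 (p.1 + p.2)) ^ 2 ≤ 1 := pow_le_one₀ h7 h8
      rw [Real.norm_eq_abs, abs_mul,
        abs_of_nonneg (sq_nonneg (cut ((n : ℝ) + 1) (Y p.1 (p.1 + p.2))))]
      calc |DD p| * cut ((n : ℝ) + 1) (Y p.1 (p.1 + p.2)) ^ 2 ≤ C * 1 := by gcongr
        _ = C := by ring
    · refine Eventually.of_forall fun p => ?_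
      have := ((cut_tendsto (Y p.1 (p.1 + p.2))).pow 2).const_mul (DD p)
      simpa using this
  have hlim2 : Tendsto (fun n : ℕ => V * K * (1 / ((n : ℝ) + 1))) atTop (𝓝 0) := by
    have h1 : Tendsto (fun n : ℕ => 1 / ((n : ℝ) + 1)) atTop (𝓝 0) :=
      tendsto_one_div_add_atTop_nhds_zero_nat
    have h2 := h1.const_mul (V * K)
    simpa using h2
  exact le_of_tendsto_of_tendsto' hlim hlim2 hkey

end

end Pool.Agent.TH44.PGH
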